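import Pool.Agent.X249.D3.Fam

/-!
# Disjunctions of CNFs for graph isomorphism: small width
-/

set_option autoImplicit false

namespace Pool.Agent.X249.D3

open Finset Pool.Agent.X249.GI

/-- A disjunction of `s` CNFs, that is, a depth-three circuit with OR at the top. A CNF is a finite
set of clauses, a clause is a finite set of literals, and the literal `(v, b)` says that the input
bit `v` is `b`. -/
structure OrCNF (ι : Type) where
  /-- the number of the CNFs -/
  s : ℕ
  /-- the CNFs -/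
  F : Fin s → Finset (Finset (ι × Bool))

variable {ι : Type}

/-- Some CNF has a true literal in each of its clauses. -/
def OrCNF.Accepts (C : OrCNF ι) (x : ι → Bool) : Prop :=
  ∃ j, ∀ c ∈ C.F j, ∃ l ∈ c, x l.1 = l.2

/-- All clauses have at most `k` literals. -/
def OrCNF.Width (C : OrCNF ι) (k : ℕ) : Prop := ∀ j, ∀ c ∈ C.F j, #c ≤ k

/-- A randomised (or nondeterministic) disjunction of CNFs for graph isomorphism with one-sided
error: no `U r` accepts a pair of non-isomorphic graphs, and every pair of isomorphic graphs is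
accepted by at least `1 / t` of the `U r`. -/
def OneSided {n : ℕ} {R : Type} (U : R → OrCNF (Bool × Sym2 (Fin n))) (t : ℕ) : Prop :=
  (∀ r (G H : SimpleGraph (Fin n)), (U r).Accepts (pairBits G H) → Nonempty (G ≃g H)) ∧
    ∀ G H : SimpleGraph (Fin n), Nonempty (G ≃g H) →
      Nat.card R ≤ t * Nat.card {r // (U r).Accepts (pairBits G H)}

variable {V : Type} {q m : ℕ}

/-- The cells that occur in a clause. -/
def touched [DecidableEq V] (e : V ≃ Fin q ⊕ Fin m) (c : Finset ((Bool × Sym2 V) × Bool)) :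
    Finset (Bool × (Fin q × Fin m)) :=
  univ.filter (fun p => ∃ b, (var e p, b) ∈ c)

theorem card_touched [DecidableEq V] (e : V ≃ Fin q ⊕ Fin m)
    (c : Finset ((Bool × Sym2 V) × Bool)) : #(touched e c) ≤ #c := by
  classical
  have h : (touched e c).image (var e) ⊆ c.image Prod.fst := by
    intro v hv
    obtain ⟨p, hp, rfl⟩ := mem_image.1 hv
    obtain ⟨b, hb⟩ := (mem_filter.1 hp).2
    exact mem_image.2 ⟨_, hb, rfl⟩
  have h1 := card_le_card h
  rw [card_image_of_injective _ (var_injective e)] at h1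
  exact h1.trans card_image_le

/-- The clause that is violated after the change of one bit. -/
theorem crit [DecidableEq V] (e : V ≃ Fin q ⊕ Fin m) {F : Finset (Finset ((Bool × Sym2 V) × Bool))}
    (hF : ∀ z, (∀ c ∈ F, ∃ l ∈ c, enc e z l.1 = l.2) → Good e z)
    {x : Bool × (Fin q × Fin m) → Bool} (hx : ∀ c ∈ F, ∃ l ∈ c, enc e x l.1 = l.2)
    (p : Bool × (Fin q × Fin m)) :
    ∃ c ∈ F, (∀ l ∈ c, enc e (Function.update x p (!x p)) l.1 ≠ l.2) ∧
      ∀ x', (∀ c ∈ F, ∃ l ∈ c, enc e x' l.1 = l.2) →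
        ∃ p' ∈ touched e c, x' p' ≠ Function.update x p (!x p) p' := by
  have h1 : ¬ ∀ c ∈ F, ∃ l ∈ c, enc e (Function.update x p (!x p)) l.1 = l.2 :=
    fun h => (hF x hx).flip p (hF _ h)
  push Not at h1
  obtain ⟨c, hc, h2⟩ := h1
  refine ⟨c, hc, h2, fun x' hx' => ?_⟩
  obtain ⟨l, hl, h3⟩ := hx' c hc
  have h4 : enc e x' l.1 ≠ enc e (Function.update x p (!x p)) l.1 := by
    rw [h3]
    exact (h2 l hl).symm
  obtain ⟨p', hp', h5⟩ := enc_diff e h4
  refine ⟨p', mem_filter.2 ⟨mem_univ _, l.2, ?_⟩, h5⟩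
  rw [← hp']
  exact hl

theorem flip_mem {S : Finset (Bool × (Fin q × Fin m))} {x : Bool × (Fin q × Fin m) → Bool}
    {p : Bool × (Fin q × Fin m)} (h : ∃ p' ∈ S, x p' ≠ Function.update x p (!x p) p') : p ∈ S := by
  obtain ⟨p', hp', h1⟩ := h
  rcases eq_or_ne p' p with rfl | hne
  · exact hp'
  · rw [Function.update_of_ne hne] at h1
    exact absurd rfl h1

theorem forced {S : Finset (Bool × (Fin q × Fin m))} {x x' : Bool × (Fin q × Fin m) → Bool}
    {p : Bool × (Fin q × Fin m)} (h : ∃ p' ∈ S, x' p' ≠ Function.update x p (!x p) p')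
    (hag : ∀ j ∈ S, j ≠ p → x j = x' j) : x' p = x p := by
  obtain ⟨p', hp', h1⟩ := h
  rcases eq_or_ne p' p with rfl | hne
  · rw [Function.update_self] at h1
    revert h1
    cases x' p' <;> cases x p' <;> simp
  · rw [Function.update_of_ne hne] at h1
    exact absurd (hag p' hp' hne).symm h1

/-- A CNF of width `k` accepts few pairs. -/
theorem card_cnf [DecidableEq V] (e : V ≃ Fin q ⊕ Fin m)
    {F : Finset (Finset ((Bool × Sym2 V) × Bool))}
    (hF : ∀ z, (∀ c ∈ F, ∃ l ∈ c, enc e z l.1 = l.2) → Good e z) {k : ℕ} (hk : 1 ≤ k)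
    (hw : ∀ c ∈ F, #c ≤ k) (A : Finset (Bool × (Fin q × Fin m) → Bool))
    (hA : ∀ z ∈ A, ∀ c ∈ F, ∃ l ∈ c, enc e z l.1 = l.2) :
    (#A : ℝ) ≤ 2 ^ (((2 * (q * m) : ℕ) : ℝ) - ((2 * (q * m) : ℕ) : ℝ) / k) := by
  classical
  have h := coding univ A hk (fun _ _ _ _ i hi => absurd (mem_univ i) hi) (by
    intro x hx i _
    obtain ⟨c, hc, _, h2⟩ := crit e hF (hA x hx) i
    exact ⟨touched e c, flip_mem (h2 x (hA x hx)), subset_univ _,
      (card_touched e c).trans (hw c hc), fun x' hx' hag => forced (h2 x' (hA x' hx')) hag⟩)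
  have hcard : #(univ : Finset (Bool × (Fin q × Fin m))) = 2 * (q * m) := by
    rw [card_univ, Fintype.card_prod, Fintype.card_bool, Fintype.card_prod, Fintype.card_fin,
      Fintype.card_fin]
  rw [hcard] at h
  rw [Real.rpow_sub (by norm_num), le_div_iff₀ (by positivity), Real.rpow_natCast]
  exact h

/-- Averaging over the randomness. -/
theorem average {n q m t : ℕ} {R : Type} [Fintype R] [Nonempty R]
    {U : R → OrCNF (Bool × Sym2 (Fin n))} (hU : OneSided U t) (e : Fin n ≃ Fin q ⊕ Fin m) {β : ℝ}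
    (hβ : ∀ (r : R) (A : Finset (Bool × (Fin q × Fin m) → Bool)), A ⊆ pairs q m →
      (∀ z ∈ A, (U r).Accepts (enc e z)) → (#A : ℝ) ≤ β) : (#(pairs q m) : ℝ) ≤ t * β := by
  classical
  have h1 : ∀ z ∈ pairs q m, Fintype.card R ≤ t * #{r | (U r).Accepts (enc e z)} := by
    intro z hz
    have h2 := hU.2 (gr e (half z false)) (gr e (half z true)) (good_of_kind e (mem_filter.1 hz).2)
    rw [Nat.card_eq_fintype_card, Nat.card_eq_fintype_card, Fintype.card_subtype] at h2
    exact h2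
  have h2 : #(pairs q m) * Fintype.card R ≤
      t * ∑ r, #((pairs q m).filter (fun z => (U r).Accepts (enc e z))) := by
    calc #(pairs q m) * Fintype.card R = ∑ _z ∈ pairs q m, Fintype.card R := by
          rw [sum_const, smul_eq_mul]
      _ ≤ ∑ z ∈ pairs q m, t * #{r | (U r).Accepts (enc e z)} := sum_le_sum h1
      _ = t * ∑ z ∈ pairs q m, #{r | (U r).Accepts (enc e z)} := by rw [mul_sum]
      _ = t * ∑ r, #((pairs q m).filter (fun z => (U r).Accepts (enc e z))) := by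
          congr 1
          simp only [card_filter]
          rw [sum_comm]
  have h3 : ((#(pairs q m) * Fintype.card R : ℕ) : ℝ) ≤ t * (Fintype.card R * β) := by
    refine le_trans (by exact_mod_cast h2 :
      ((#(pairs q m) * Fintype.card R : ℕ) : ℝ) ≤ ((t * ∑ r,
        #((pairs q m).filter (fun z => (U r).Accepts (enc e z))) : ℕ) : ℝ)) ?_
    push_cast
    refine mul_le_mul_of_nonneg_left ?_ (by positivity)
    calc ∑ r, (#((pairs q m).filter (fun z => (U r).Accepts (enc e z))) : ℝ)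
        ≤ ∑ _r : R, β := sum_le_sum (fun r _ => hβ r _ (filter_subset _ _)
          (fun z hz => (mem_filter.1 hz).2))
      _ = Fintype.card R * β := by rw [sum_const, card_univ, nsmul_eq_mul]
  have hpos : (0 : ℝ) < Fintype.card R := by exact_mod_cast Fintype.card_pos
  push_cast at h3
  have h4 : (#(pairs q m) : ℝ) * Fintype.card R ≤ (t * β) * Fintype.card R := by
    rw [mul_assoc, mul_comm β]
    exact h3
  exact le_of_mul_le_mul_right h4 hpos

/-- The bound in terms of the sizes of the two sides. -/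
theorem small_width_aux {n q m k s t : ℕ} (hk : 1 ≤ k) {R : Type} [Fintype R] [Nonempty R]
    {U : R → OrCNF (Bool × Sym2 (Fin n))} (hU : OneSided U t) (hw : ∀ r, (U r).Width k)
    (hs : ∀ r, (U r).s ≤ s) (e : Fin n ≃ Fin q ⊕ Fin m) :
    4 ^ (q * m) ≤ (s * t) ^ k * (q + 1) ^ (k * 2 ^ m) := by
  classical
  set N := 2 * (q * m) with hN
  set β : ℝ := (2 : ℝ) ^ ((N : ℝ) - (N : ℝ) / k) with hβ
  have hβ0 : 0 < β := by positivity
  have hkR : (k : ℝ) ≠ 0 := by
    have : (0 : ℝ) < k := by exact_mod_cast hk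
    exact this.ne'
  have h1 := average hU e (β := s * β) (by
    intro r A _ hA
    have h2 : A ⊆ (univ : Finset (Fin (U r).s)).biUnion (fun j =>
        A.filter (fun z => ∀ c ∈ (U r).F j, ∃ l ∈ c, enc e z l.1 = l.2)) := by
      intro z hz
      obtain ⟨j, hj⟩ := hA z hz
      exact mem_biUnion.2 ⟨j, mem_univ _, mem_filter.2 ⟨hz, hj⟩⟩
    have h3 := (card_le_card h2).trans card_biUnion_le
    calc (#A : ℝ) ≤ ((∑ j : Fin (U r).s,
          #(A.filter (fun z => ∀ c ∈ (U r).F j, ∃ l ∈ c, enc e z l.1 = l.2)) : ℕ) : ℝ) := by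
          exact_mod_cast h3
      _ = ∑ j : Fin (U r).s,
          (#(A.filter (fun z => ∀ c ∈ (U r).F j, ∃ l ∈ c, enc e z l.1 = l.2)) : ℝ) := by
          push_cast
          rfl
      _ ≤ ∑ _j : Fin (U r).s, β := by
          refine sum_le_sum (fun j _ => ?_)
          exact card_cnf e (F := (U r).F j) (fun z hz => hU.1 r _ _ ⟨j, hz⟩) hk (hw r j) _
            (fun z hz => (mem_filter.1 hz).2)
      _ = (U r).s * β := by rw [sum_const, card_univ, Fintype.card_fin, nsmul_eq_mul]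
      _ ≤ s * β := by
          refine mul_le_mul_of_nonneg_right ?_ hβ0.le
          exact_mod_cast hs r)
  have h2 : ((#(pairs q m) : ℝ)) ^ k * 2 ^ N ≤ ((s * t : ℕ) : ℝ) ^ k * 2 ^ (N * k) := by
    have h3 : ((#(pairs q m) : ℝ)) ^ k ≤ (((s * t : ℕ) : ℝ) * β) ^ k := by
      refine pow_le_pow_left₀ (by positivity) ?_ k
      push_cast
      linarith
    have h4 : β ^ k * 2 ^ N = (2 : ℝ) ^ (N * k) := by
      rw [hβ, ← Real.rpow_natCast (_ ^ _) k, ← Real.rpow_mul (by norm_num), sub_mul,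
        div_mul_cancel₀ _ hkR, ← Real.rpow_natCast 2 N, ← Real.rpow_add (by norm_num),
        sub_add_cancel, ← Nat.cast_mul, Real.rpow_natCast]
    rw [mul_pow] at h3
    calc ((#(pairs q m) : ℝ)) ^ k * 2 ^ N ≤ (((s * t : ℕ) : ℝ) ^ k * β ^ k) * 2 ^ N :=
          mul_le_mul_of_nonneg_right h3 (by positivity)
      _ = ((s * t : ℕ) : ℝ) ^ k * (β ^ k * 2 ^ N) := by ring
      _ = ((s * t : ℕ) : ℝ) ^ k * 2 ^ (N * k) := by rw [h4]
  have h3 : #(pairs q m) ^ k * 2 ^ N ≤ (s * t) ^ k * 2 ^ (N * k) := by exact_mod_cast h2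
  have h4 := Nat.pow_le_pow_left (card_pairs q m) k
  rw [← pow_mul, mul_pow, ← pow_mul, ← hN] at h4
  have h5 : 0 < #(pairs q m) ^ k := by
    by_contra hcon
    have h6 : #(pairs q m) ^ k = 0 := by omega
    rw [h6, Nat.mul_zero] at h4
    have : 0 < 2 ^ (N * k) := by positivity
    omega
  have h6 : #(pairs q m) ^ k * 2 ^ N ≤
      #(pairs q m) ^ k * ((s * t) ^ k * (q + 1) ^ (k * 2 ^ m)) := by
    calc #(pairs q m) ^ k * 2 ^ N ≤ (s * t) ^ k * 2 ^ (N * k) := h3
      _ ≤ (s * t) ^ k * ((q + 1) ^ (2 ^ m * k) * #(pairs q m) ^ k) := Nat.mul_le_mul_left _ h4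
      _ = #(pairs q m) ^ k * ((s * t) ^ k * (q + 1) ^ (k * 2 ^ m)) := by
          rw [Nat.mul_comm (2 ^ m) k]
          ring
  have h7 := Nat.le_of_mul_le_mul_left h6 h5
  rw [hN, pow_mul] at h7
  exact h7

/-- **Small width.** -/
theorem small_width {n k s t : ℕ} (hk : 1 ≤ k) (hn : 64 * k ^ 2 ≤ n) {R : Type} [Fintype R]
    [Nonempty R] {U : R → OrCNF (Bool × Sym2 (Fin n))} (hU : OneSided U t)
    (hw : ∀ r, (U r).Width k) (hs : ∀ r, (U r).s ≤ s) : n ^ n ≤ (s * t) ^ (2 * k) := by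
  have hk2 : k ≤ k ^ 2 := Nat.le_self_pow (by norm_num) k
  have hk3 : 1 ≤ k ^ 2 := hk.trans hk2
  set a := n / (4 * k) with ha
  have ha16 : 16 ≤ a := by
    rw [ha, Nat.le_div_iff_mul_le (by omega)]
    nlinarith
  set m := Nat.log 2 a with hm
  have h1 : 2 ^ m ≤ a := Nat.pow_log_le_self 2 (by omega)
  have h2 : a < 2 ^ (m + 1) := Nat.lt_pow_succ_log_self (by norm_num) a
  have ha4 : 4 * k * a ≤ n := Nat.mul_div_le n (4 * k)
  have ha5 : n < 4 * k * (a + 1) := by
    have := Nat.lt_mul_div_succ n (show 0 < 4 * k by omega)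
    rwa [← ha] at this
  -- `n ≤ 4 ^ m`
  have h4m : n ≤ 4 ^ m := by
    have h3 : n < 8 * k * 2 ^ m := by
      have h4 : a + 1 ≤ 2 * 2 ^ m := by rw [pow_succ'] at h2; exact h2
      calc n < 4 * k * (a + 1) := ha5
        _ ≤ 4 * k * (2 * 2 ^ m) := Nat.mul_le_mul_left _ h4
        _ = 8 * k * 2 ^ m := by ring
    have h5 : n * n ≤ n * 4 ^ m := by
      calc n * n ≤ (8 * k * 2 ^ m) * (8 * k * 2 ^ m) := Nat.mul_le_mul h3.le h3.le
        _ = (64 * k ^ 2) * 4 ^ m := by
            rw [show (4 : ℕ) = 2 * 2 by norm_num, mul_pow]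
            ring
        _ ≤ n * 4 ^ m := Nat.mul_le_mul_right _ hn
    exact Nat.le_of_mul_le_mul_left h5 (by omega)
  have hma : m < a := (Nat.lt_two_pow_self).trans_le h1
  have hmn : 4 * m ≤ n := by nlinarith
  have hq : (n - m) + m = n := by omega
  have key := small_width_aux hk hU hw hs
    ((finCongr hq.symm).trans (finSumFinEquiv (m := n - m) (n := m)).symm)
  have h6 : n - m + 1 ≤ n := by
    have : 1 ≤ m := by
      by_contra h
      have : m = 0 := by omega
      rw [this] at h2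
      omega
    omega
  -- collect
  have h7 : n ^ (n - m) ≤ (s * t) ^ k * n ^ (n / 4) := by
    calc n ^ (n - m) ≤ (4 ^ m) ^ (n - m) := Nat.pow_le_pow_left h4m _
      _ = 4 ^ ((n - m) * m) := by rw [← pow_mul, Nat.mul_comm]
      _ ≤ (s * t) ^ k * (n - m + 1) ^ (k * 2 ^ m) := key
      _ ≤ (s * t) ^ k * n ^ (k * 2 ^ m) := Nat.mul_le_mul_left _ (Nat.pow_le_pow_left h6 _)
      _ ≤ (s * t) ^ k * n ^ (n / 4) := by
          refine Nat.mul_le_mul_left _ (Nat.pow_le_pow_right (by omega) ?_)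
          rw [Nat.le_div_iff_mul_le (by norm_num)]
          calc k * 2 ^ m * 4 ≤ k * a * 4 := Nat.mul_le_mul_right _ (Nat.mul_le_mul_left _ h1)
            _ = 4 * k * a := by ring
            _ ≤ n := ha4
  have h8 : n ^ (n - m - n / 4) ≤ (s * t) ^ k := by
    have h9 : n ^ (n - m) = n ^ (n - m - n / 4) * n ^ (n / 4) := by
      rw [← pow_add]
      congr 1
      omega
    rw [h9] at h7
    exact Nat.le_of_mul_le_mul_right h7 (Nat.pow_pos (by omega))
  calc n ^ n ≤ n ^ ((n - m - n / 4) * 2) := Nat.pow_le_pow_right (by omega) (by omega)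
    _ = (n ^ (n - m - n / 4)) ^ 2 := by rw [pow_mul]
    _ ≤ ((s * t) ^ k) ^ 2 := Nat.pow_le_pow_left h8 _
    _ = (s * t) ^ (2 * k) := by rw [← pow_mul, Nat.mul_comm k 2]

end Pool.Agent.X249.D3
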