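import Pool.Agent.X249.D3.Kraft
import Pool.Agent.X249.GI.Obl

/-!
# The family of bipartite graphs with a small side
-/

set_option autoImplicit false

namespace Pool.Agent.X249.D3

open Finset Pool.Agent.X249.GI

variable {V : Type} {q m : ℕ}

/-- The bipartite graph with the table `y`. -/
def bip (y : Fin q × Fin m → Bool) : SimpleGraph (Fin q ⊕ Fin m) where
  Adj u v := ∃ j c, y (j, c) = true ∧
    ((u = Sum.inl j ∧ v = Sum.inr c) ∨ (v = Sum.inl j ∧ u = Sum.inr c))
  symm := ⟨fun _ _ ⟨j, c, h, h'⟩ => ⟨j, c, h, h'.symm⟩⟩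
  loopless := ⟨fun u ⟨j, c, _, h'⟩ => by
    rcases h' with ⟨h1, h2⟩ | ⟨h1, h2⟩ <;> exact Sum.inl_ne_inr (h1.symm.trans h2)⟩

/-- The graph on `V`. -/
def gr (e : V ≃ Fin q ⊕ Fin m) (y : Fin q × Fin m → Bool) : SimpleGraph V := (bip y).comap e

/-- The pair of vertices for a cell of the table. -/
def ed (e : V ≃ Fin q ⊕ Fin m) (u : Fin q × Fin m) : Sym2 V :=
  s(e.symm (Sum.inl u.1), e.symm (Sum.inr u.2))

/-- The input bit for a cell of one of the two tables. -/
def var (e : V ≃ Fin q ⊕ Fin m) (p : Bool × (Fin q × Fin m)) : Bool × Sym2 V := (p.1, ed e p.2)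

theorem ed_injective (e : V ≃ Fin q ⊕ Fin m) : Function.Injective (ed e) := by
  rintro ⟨j, c⟩ ⟨j', c'⟩ h
  unfold ed at h
  rcases Sym2.eq_iff.1 h with ⟨h1, h2⟩ | ⟨h1, h2⟩
  · have h3 := Sum.inl_injective (e.symm.injective h1)
    have h4 := Sum.inr_injective (e.symm.injective h2)
    exact Prod.ext h3 h4
  · exact absurd (e.symm.injective h1) Sum.inl_ne_inr

theorem var_injective (e : V ≃ Fin q ⊕ Fin m) : Function.Injective (var e) := by
  rintro ⟨b, u⟩ ⟨b', u'⟩ h
  have h1 := Prod.mk.inj h
  exact Prod.ext h1.1 (ed_injective e h1.2)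

theorem mem_edgeSet (e : V ≃ Fin q ⊕ Fin m) (y : Fin q × Fin m → Bool) (x : Sym2 V) :
    x ∈ (gr e y).edgeSet ↔ ∃ u, y u = true ∧ x = ed e u := by
  induction x using Sym2.ind with
  | _ a b =>
    rw [SimpleGraph.mem_edgeSet]
    show (∃ j c, y (j, c) = true ∧
      ((e a = Sum.inl j ∧ e b = Sum.inr c) ∨ (e b = Sum.inl j ∧ e a = Sum.inr c))) ↔ _
    constructor
    · rintro ⟨j, c, h, h'⟩
      refine ⟨(j, c), h, ?_⟩
      unfold ed
      rw [Sym2.eq_iff]
      rcases h' with ⟨h1, h2⟩ | ⟨h1, h2⟩
      · left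
        exact ⟨by rw [← h1, e.symm_apply_apply], by rw [← h2, e.symm_apply_apply]⟩
      · right
        exact ⟨by rw [← h2, e.symm_apply_apply], by rw [← h1, e.symm_apply_apply]⟩
    · rintro ⟨⟨j, c⟩, h, h'⟩
      refine ⟨j, c, h, ?_⟩
      unfold ed at h'
      rcases Sym2.eq_iff.1 h' with ⟨h1, h2⟩ | ⟨h1, h2⟩
      · left
        rw [h1, h2, e.apply_symm_apply, e.apply_symm_apply]
        exact ⟨rfl, rfl⟩
      · right
        rw [h1, h2, e.apply_symm_apply, e.apply_symm_apply]
        exact ⟨rfl, rfl⟩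

/-- The half of a pair of tables. -/
def half (z : Bool × (Fin q × Fin m) → Bool) (b : Bool) : Fin q × Fin m → Bool := fun u => z (b, u)

/-- The input for a pair of tables. -/
noncomputable def enc (e : V ≃ Fin q ⊕ Fin m) (z : Bool × (Fin q × Fin m) → Bool) :
    Bool × Sym2 V → Bool :=
  pairBits (gr e (half z false)) (gr e (half z true))

theorem enc_var (e : V ≃ Fin q ⊕ Fin m) (z : Bool × (Fin q × Fin m) → Bool)
    (p : Bool × (Fin q × Fin m)) : enc e z (var e p) = z p := by
  classical
  obtain ⟨b, u⟩ := p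
  unfold enc pairBits var
  have key : ∀ b : Bool, (ed e u ∈ (gr e (half z b)).edgeSet ↔ z (b, u) = true) := by
    intro b
    rw [mem_edgeSet]
    constructor
    · rintro ⟨u', h1, h2⟩
      rw [← ed_injective e h2] at h1
      exact h1
    · intro h
      exact ⟨u, h, rfl⟩
  cases b
  · simp only [Bool.false_eq_true, if_false]
    exact Bool.eq_iff_iff.2 (by rw [decide_eq_true_iff]; exact key false)
  · simp only [if_true]
    exact Bool.eq_iff_iff.2 (by rw [decide_eq_true_iff]; exact key true)

theorem enc_other (e : V ≃ Fin q ⊕ Fin m) (z : Bool × (Fin q × Fin m) → Bool)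
    (v : Bool × Sym2 V) (hv : ∀ p, v ≠ var e p) : enc e z v = false := by
  classical
  obtain ⟨b, x⟩ := v
  unfold enc pairBits
  have key : ∀ b' : Bool, b' = b → x ∉ (gr e (half z b')).edgeSet := by
    intro b' hb
    rw [mem_edgeSet]
    rintro ⟨u, _, h⟩
    exact hv (b, u) (by rw [h]; rfl)
  cases b
  · simp only [Bool.false_eq_true, if_false]
    exact decide_eq_false (key false rfl)
  · simp only [if_true]
    exact decide_eq_false (key true rfl)

theorem enc_diff (e : V ≃ Fin q ⊕ Fin m) {z z' : Bool × (Fin q × Fin m) → Bool}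
    {v : Bool × Sym2 V} (h : enc e z v ≠ enc e z' v) : ∃ p, v = var e p ∧ z p ≠ z' p := by
  by_cases hv : ∃ p, v = var e p
  · obtain ⟨p, rfl⟩ := hv
    rw [enc_var, enc_var] at h
    exact ⟨p, rfl, h⟩
  · push Not at hv
    rw [enc_other e z v hv, enc_other e z' v hv] at h
    exact absurd rfl h

/-- The two graphs are isomorphic. -/
def Good (e : V ≃ Fin q ⊕ Fin m) (z : Bool × (Fin q × Fin m) → Bool) : Prop :=
  Nonempty (gr e (half z false) ≃g gr e (half z true))

/-- The number of edges. -/
def cnt (y : Fin q × Fin m → Bool) : ℕ := #{u | y u = true}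

theorem card_edgeSet (e : V ≃ Fin q ⊕ Fin m) (y : Fin q × Fin m → Bool) :
    Nat.card (gr e y).edgeSet = cnt y := by
  have h : {u : Fin q × Fin m // y u = true} ≃ (gr e y).edgeSet :=
    Equiv.ofBijective (fun u => ⟨ed e u.1, (mem_edgeSet e y _).2 ⟨u.1, u.2, rfl⟩⟩) (by
      constructor
      · intro u u' h
        exact Subtype.ext (ed_injective e (congrArg Subtype.val h))
      · rintro ⟨x, hx⟩
        obtain ⟨u, hu, rfl⟩ := (mem_edgeSet e y x).1 hx
        exact ⟨⟨u, hu⟩, rfl⟩)
  rw [← Nat.card_congr h, Nat.card_eq_fintype_card, Fintype.card_subtype, cnt]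

theorem Good.cnt_eq {e : V ≃ Fin q ⊕ Fin m} {z : Bool × (Fin q × Fin m) → Bool} (h : Good e z) :
    cnt (half z false) = cnt (half z true) := by
  obtain ⟨f⟩ := h
  rw [← card_edgeSet e, ← card_edgeSet e]
  exact Nat.card_congr f.mapEdgeSet

theorem cnt_flip (y : Fin q × Fin m → Bool) (u : Fin q × Fin m) :
    cnt (Function.update y u (!y u)) ≠ cnt y := by
  unfold cnt
  cases h : y u with
  | false =>
    have h1 : ({u' | Function.update y u (!false) u' = true} : Finset _) =
        insert u ({u' | y u' = true} : Finset _) := by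
      ext u'
      rw [mem_filter, mem_insert, mem_filter]
      rcases eq_or_ne u' u with rfl | hne
      · simp
      · simp [hne]
    rw [h1, card_insert_of_notMem (by simp [h])]
    omega
  | true =>
    have h1 : insert u ({u' | Function.update y u (!true) u' = true} : Finset _) =
        ({u' | y u' = true} : Finset _) := by
      ext u'
      rw [mem_insert, mem_filter, mem_filter]
      rcases eq_or_ne u' u with rfl | hne
      · simp [h]
      · simp [hne]
    rw [← h1, card_insert_of_notMem (by simp)]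
    omega

theorem Good.flip {e : V ≃ Fin q ⊕ Fin m} {z : Bool × (Fin q × Fin m) → Bool} (h : Good e z)
    (p : Bool × (Fin q × Fin m)) : ¬ Good e (Function.update z p (!z p)) := by
  intro h'
  have h1 := h.cnt_eq
  have h2 := h'.cnt_eq
  obtain ⟨b, u⟩ := p
  have key : ∀ b', half (Function.update z (b, u) (!z (b, u))) b' =
      if b' = b then Function.update (half z b) u (!half z b u) else half z b' := by
    intro b'
    funext u'
    by_cases hb : b' = b
    · subst hb
      rw [if_pos rfl]
      rcases eq_or_ne u' u with rfl | hne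
      · simp [half]
      · rw [Function.update_of_ne hne]
        simp [half, Function.update_of_ne, hne]
    · rw [if_neg hb]
      simp [half, Function.update_of_ne, hb]
  rw [key, key] at h2
  cases b
  · rw [if_pos rfl, if_neg (by decide)] at h2
    exact cnt_flip (half z false) u (h2.trans h1.symm)
  · rw [if_neg (by decide), if_pos rfl] at h2
    exact cnt_flip (half z true) u (h2.symm.trans h1)

/-- The numbers of rows of each kind. -/
def kind (y : Fin q × Fin m → Bool) : (Fin m → Bool) → Fin (q + 1) := fun r =>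
  ⟨#{j | (fun c => y (j, c)) = r}, Nat.lt_succ_of_le ((card_le_univ _).trans_eq (Fintype.card_fin q))⟩

theorem good_of_kind (e : V ≃ Fin q ⊕ Fin m) {z : Bool × (Fin q × Fin m) → Bool}
    (h : kind (half z false) = kind (half z true)) : Good e z := by
  classical
  set y := half z false with hy
  set y' := half z true with hy'
  have h1 : ∀ r : Fin m → Bool, Nonempty ({j : Fin q // (fun c => y (j, c)) = r} ≃
      {j : Fin q // (fun c => y' (j, c)) = r}) := by
    intro r
    have h2 := congrArg Fin.val (congrFun h r)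
    refine ⟨Fintype.equivOfCardEq ?_⟩
    rw [Fintype.card_subtype, Fintype.card_subtype]
    exact h2
  let σ : Fin q ≃ Fin q :=
    (Equiv.sigmaFiberEquiv (fun j c => y (j, c))).symm.trans
      ((Equiv.sigmaCongrRight (fun r => (h1 r).some)).trans
        (Equiv.sigmaFiberEquiv (fun j c => y' (j, c))))
  have hσ : ∀ j c, y' (σ j, c) = y (j, c) := by
    intro j c
    have h3 := ((h1 (fun c => y (j, c))).some ⟨j, rfl⟩).2
    exact congrFun h3 c
  let f : Fin q ⊕ Fin m ≃ Fin q ⊕ Fin m := Equiv.sumCongr σ (Equiv.refl _)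
  have hf : ∀ a b, (bip y').Adj (f a) (f b) ↔ (bip y).Adj a b := by
    intro a b
    constructor
    · rintro ⟨j, c, hjc, h'⟩
      refine ⟨σ.symm j, c, ?_, ?_⟩
      · rw [← hσ, σ.apply_symm_apply]
        exact hjc
      · have hl : ∀ a : Fin q ⊕ Fin m, f a = Sum.inl j → a = Sum.inl (σ.symm j) := by
          intro a ha
          rcases a with a | a
          · have := Sum.inl_injective ha
            rw [← this]
            simp
          · exact absurd ha Sum.inr_ne_inl
        have hr : ∀ a : Fin q ⊕ Fin m, f a = Sum.inr c → a = Sum.inr c := by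
          intro a ha
          rcases a with a | a
          · exact absurd ha Sum.inl_ne_inr
          · exact ha
        rcases h' with ⟨ha, hb⟩ | ⟨ha, hb⟩
        · exact Or.inl ⟨hl _ ha, hr _ hb⟩
        · exact Or.inr ⟨hl _ ha, hr _ hb⟩
    · rintro ⟨j, c, hjc, h'⟩
      refine ⟨σ j, c, (hσ j c).trans hjc, ?_⟩
      rcases h' with ⟨rfl, rfl⟩ | ⟨rfl, rfl⟩
      · exact Or.inl ⟨rfl, rfl⟩
      · exact Or.inr ⟨rfl, rfl⟩
  exact ⟨⟨e.trans (f.trans e.symm), fun {a b} => by
    show (bip y').Adj (e (e.symm (f (e a)))) (e (e.symm (f (e b)))) ↔ (bip y).Adj (e a) (e b)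
    rw [e.apply_symm_apply, e.apply_symm_apply]
    exact hf _ _⟩⟩

/-- The pairs of tables of the same kind. -/
def pairs (q m : ℕ) : Finset (Bool × (Fin q × Fin m) → Bool) :=
  univ.filter (fun z => kind (half z false) = kind (half z true))

theorem card_pairs (q m : ℕ) :
    2 ^ (2 * (q * m)) ≤ (q + 1) ^ 2 ^ m * #(pairs q m) := by
  classical
  have h1 : #(pairs q m) = ∑ t : (Fin m → Bool) → Fin (q + 1),
      #{y : Fin q × Fin m → Bool | kind y = t} ^ 2 := by
    have h2 : #(pairs q m) = #((univ : Finset ((Fin q × Fin m → Bool) ×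
        (Fin q × Fin m → Bool))).filter (fun p => kind p.1 = kind p.2)) := by
      refine card_bij' (fun z _ => (half z false, half z true))
        (fun p _ => fun v => if v.1 then p.2 v.2 else p.1 v.2) ?_ ?_ ?_ ?_
      · intro z hz
        exact mem_filter.2 ⟨mem_univ _, (mem_filter.1 hz).2⟩
      · intro p hp
        exact mem_filter.2 ⟨mem_univ _, (mem_filter.1 hp).2⟩
      · intro z _
        funext v
        obtain ⟨b, u⟩ := v
        cases b <;> rfl
      · intro p _
        rfl
    rw [h2, card_eq_sum_card_fiberwise (f := fun p => kind p.1) (t := univ)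
      (fun _ _ => mem_coe.2 (mem_univ _))]
    refine sum_congr rfl (fun t _ => ?_)
    rw [pow_two, ← card_product]
    congr 1
    ext p
    rw [mem_filter, mem_filter, mem_product, mem_filter, mem_filter]
    constructor
    · rintro ⟨⟨_, h3⟩, h4⟩
      exact ⟨⟨mem_univ _, h4⟩, mem_univ _, h3.symm.trans h4⟩
    · rintro ⟨⟨_, h3⟩, _, h4⟩
      exact ⟨⟨mem_univ _, h3.trans h4.symm⟩, h3⟩
  have h3 : ∑ t : (Fin m → Bool) → Fin (q + 1), #{y : Fin q × Fin m → Bool | kind y = t} =
      2 ^ (q * m) := by
    rw [← card_eq_sum_card_fiberwise (s := (univ : Finset (Fin q × Fin m → Bool)))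
      (f := fun y => kind y) (t := univ) (fun _ _ => mem_coe.2 (mem_univ _)), card_univ,
      Fintype.card_fun, Fintype.card_bool, Fintype.card_prod, Fintype.card_fin, Fintype.card_fin]
  have h4 := sq_sum_le_card_mul_sum_sq (s := (univ : Finset ((Fin m → Bool) → Fin (q + 1))))
    (f := fun t => #{y : Fin q × Fin m → Bool | kind y = t})
  rw [h3, ← h1, card_univ, Fintype.card_fun, Fintype.card_fin, Fintype.card_fun,
    Fintype.card_bool, Fintype.card_fin] at h4
  rw [Nat.mul_comm 2, pow_mul]
  exact h4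

end Pool.Agent.X249.D3
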