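import Mathlib

/-!
# A satisfiability coding lemma (Paturi, Pudlák, Zane)
-/

set_option autoImplicit false

namespace Pool.Agent.X249.D3

open Finset

/-- The Kraft inequality for a set of strings in which some letters are forced by the earlier
letters. -/
theorem kraft : ∀ (N : ℕ) (A : Finset (Fin N → Bool)) (J : (Fin N → Bool) → Finset (Fin N)),
    (∀ x ∈ A, ∀ x' ∈ A, ∀ i ∈ J x, (∀ j < i, x j = x' j) → x' i = x i) →
    ∑ x ∈ A, 2 ^ #(J x) ≤ 2 ^ N := by
  intro N
  induction N with
  | zero =>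
    intro A J _
    have h1 : ∀ x ∈ A, 2 ^ #(J x) = 1 := by
      intro x _
      have : J x = ∅ := by
        ext i
        exact i.elim0
      rw [this, card_empty, pow_zero]
    rw [sum_congr rfl h1, sum_const, smul_eq_mul, mul_one, pow_zero]
    exact card_le_one_of_subsingleton A
  | succ N ih =>
    intro A J hJ
    classical
    let Ab : Bool → Finset (Fin N → Bool) := fun b =>
      univ.filter (fun y => (Fin.cons b y : Fin (N + 1) → Bool) ∈ A)
    let Jb : Bool → (Fin N → Bool) → Finset (Fin N) := fun b y =>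
      univ.filter (fun i => i.succ ∈ J (Fin.cons b y))
    have hih : ∀ b, ∑ y ∈ Ab b, 2 ^ #(Jb b y) ≤ 2 ^ N := by
      intro b
      apply ih
      intro x hx x' hx' i hi hag
      have h1 := hJ (Fin.cons b x) (mem_filter.1 hx).2 (Fin.cons b x') (mem_filter.1 hx').2
        i.succ (mem_filter.1 hi).2 (by
          intro j hj
          refine Fin.cases ?_ (fun j => ?_) j hj
          · intro _
            rfl
          · intro hj
            simp only [Fin.cons_succ]
            exact hag j (Fin.succ_lt_succ_iff.1 hj))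
      simpa using h1
    have hsplit : ∑ x ∈ A, 2 ^ #(J x) =
        ∑ b : Bool, ∑ y ∈ Ab b, 2 ^ #(J (Fin.cons b y)) := by
      rw [sum_sigma']
      symm
      refine sum_bij (fun p _ => (Fin.cons p.1 p.2 : Fin (N + 1) → Bool)) ?_ ?_ ?_ ?_
      · rintro ⟨b, y⟩ hp
        exact (mem_filter.1 (mem_sigma.1 hp).2).2
      · rintro ⟨b, y⟩ _ ⟨b', y'⟩ _ h
        have h1 := Fin.cons_injective2 h
        obtain ⟨rfl, rfl⟩ := h1
        rfl
      · intro x hx
        refine ⟨⟨x 0, Fin.tail x⟩, ?_, ?_⟩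
        · rw [mem_sigma]
          refine ⟨mem_univ _, mem_filter.2 ⟨mem_univ _, ?_⟩⟩
          rw [Fin.cons_self_tail]
          exact hx
        · exact Fin.cons_self_tail x
      · intro _ _
        rfl
    have hcard : ∀ b y, #(J (Fin.cons b y)) ≤ #(Jb b y) + 1 ∧
        (0 ∉ J (Fin.cons b y) → #(J (Fin.cons b y)) ≤ #(Jb b y)) := by
      intro b y
      have hsub : J (Fin.cons b y) ⊆ insert 0 ((Jb b y).map (Fin.succEmb N)) := by
        intro i hi
        rw [mem_insert, mem_map]
        refine Fin.cases ?_ (fun i => ?_) i hi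
        · intro _
          exact Or.inl rfl
        · intro hi
          exact Or.inr ⟨i, mem_filter.2 ⟨mem_univ _, hi⟩, rfl⟩
      constructor
      · refine (card_le_card hsub).trans ((card_insert_le _ _).trans ?_)
        rw [card_map]
      · intro h0
        have hsub' : J (Fin.cons b y) ⊆ (Jb b y).map (Fin.succEmb N) := by
          intro i hi
          rcases mem_insert.1 (hsub hi) with rfl | h
          · exact absurd hi h0
          · exact h
        refine (card_le_card hsub').trans ?_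
        rw [card_map]
    rw [hsplit, Fintype.sum_bool]
    by_cases h0 : ∃ x ∈ A, 0 ∈ J x
    · obtain ⟨x, hx, h0⟩ := h0
      have hall : ∀ x' ∈ A, x' 0 = x 0 := fun x' hx' =>
        hJ x hx x' hx' 0 h0 (fun j hj => absurd hj (Fin.not_lt_zero j))
      have hempty : ∀ b, b ≠ x 0 → Ab b = ∅ := by
        intro b hb
        rw [eq_empty_iff_forall_notMem]
        intro y hy
        have h1 := hall _ (mem_filter.1 hy).2
        rw [Fin.cons_zero] at h1
        exact hb h1
      have hbound : ∀ b, ∑ y ∈ Ab b, 2 ^ #(J (Fin.cons b y)) ≤ 2 * 2 ^ N := by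
        intro b
        calc ∑ y ∈ Ab b, 2 ^ #(J (Fin.cons b y)) ≤ ∑ y ∈ Ab b, 2 * 2 ^ #(Jb b y) := by
              refine sum_le_sum (fun y _ => ?_)
              rw [← pow_succ']
              exact Nat.pow_le_pow_right (by norm_num) (hcard b y).1
          _ = 2 * ∑ y ∈ Ab b, 2 ^ #(Jb b y) := by rw [mul_sum]
          _ ≤ 2 * 2 ^ N := Nat.mul_le_mul_left _ (hih b)
      rw [pow_succ']
      cases hx0 : x 0 with
      | true =>
        rw [hempty false (by rw [hx0]; exact Bool.noConfusion), sum_empty, add_zero]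
        exact hbound true
      | false =>
        rw [hempty true (by rw [hx0]; exact Bool.noConfusion), sum_empty, zero_add]
        exact hbound false
    · push Not at h0
      have hbound : ∀ b, ∑ y ∈ Ab b, 2 ^ #(J (Fin.cons b y)) ≤ 2 ^ N := by
        intro b
        refine (sum_le_sum (fun y hy => ?_)).trans (hih b)
        exact Nat.pow_le_pow_right (by norm_num) ((hcard b y).2 (h0 _ (mem_filter.1 hy).2))
      have := hbound true
      have := hbound false
      rw [pow_succ]
      omega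

/-- In a random order an element of a set `V` is the last element of `V` with probability
`1 / |V|`. -/
theorem card_last {E : Type} [Fintype E] [DecidableEq E] {N : ℕ} (V : Finset E) {i : E}
    (hi : i ∈ V) : Fintype.card (E ≃ Fin N) ≤
      #V * #{σ : E ≃ Fin N | ∀ j ∈ V, j ≠ i → σ j < σ i} := by
  classical
  have hsub : (univ : Finset (E ≃ Fin N)) ⊆
      V.biUnion (fun v => {σ : E ≃ Fin N | ∀ j ∈ V, j ≠ v → σ j < σ v}) := by
    intro σ _
    obtain ⟨v, hv, hmax⟩ := exists_max_image V σ ⟨i, hi⟩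
    refine mem_biUnion.2 ⟨v, hv, mem_filter.2 ⟨mem_univ _, fun j hj hne => ?_⟩⟩
    exact lt_of_le_of_ne (hmax j hj) (fun h => hne (σ.injective h))
  have h1 := (card_le_card hsub).trans card_biUnion_le
  rw [card_univ] at h1
  refine h1.trans ?_
  rw [← smul_eq_mul]
  refine sum_le_card_nsmul _ _ _ (fun v hv => ?_)
  refine card_le_card_of_injOn (fun σ => (Equiv.swap i v).trans σ) ?_ ?_
  · intro σ hσ
    have hσ' := (mem_filter.1 (mem_coe.1 hσ)).2
    rw [mem_coe, mem_filter]
    refine ⟨mem_univ _, fun j hj hne => ?_⟩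
    show σ (Equiv.swap i v j) < σ (Equiv.swap i v i)
    rw [Equiv.swap_apply_left]
    rcases eq_or_ne j v with rfl | hjv
    · rw [Equiv.swap_apply_right]
      exact hσ' i hi (Ne.symm hne)
    · rw [Equiv.swap_apply_of_ne_of_ne hne hjv]
      exact hσ' j hj hjv
  · intro σ _ τ _ h
    have h2 : ∀ x, σ x = τ x := by
      intro x
      have h3 := congrArg (fun f : E ≃ Fin N => f (Equiv.swap i v x)) h
      simpa using h3
    exact Equiv.ext h2

/-- Jensen's inequality for powers of two. -/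
theorem jensen {S : Type} (s : Finset S) (f : S → ℕ) (a : ℝ) (h : a * #s ≤ ∑ x ∈ s, (f x : ℝ)) :
    (2 : ℝ) ^ a * #s ≤ ∑ x ∈ s, (2 : ℝ) ^ (f x) := by
  have hlog : 0 < Real.log 2 := Real.log_pos (by norm_num)
  have h1 : ∀ x ∈ s, (2 : ℝ) ^ a * (1 + Real.log 2 * ((f x : ℝ) - a)) ≤ (2 : ℝ) ^ (f x) := by
    intro x _
    have h2 := Real.add_one_le_exp (Real.log 2 * ((f x : ℝ) - a))
    have h3 : (2 : ℝ) ^ (f x) = (2 : ℝ) ^ a * Real.exp (Real.log 2 * ((f x : ℝ) - a)) := by
      rw [← Real.rpow_natCast, Real.rpow_def_of_pos (by norm_num : (0 : ℝ) < 2),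
        Real.rpow_def_of_pos (by norm_num : (0 : ℝ) < 2), ← Real.exp_add]
      congr 1
      ring
    rw [h3]
    refine mul_le_mul_of_nonneg_left ?_ (by positivity)
    linarith
  refine le_trans ?_ (sum_le_sum h1)
  rw [← mul_sum]
  refine mul_le_mul_of_nonneg_left ?_ (by positivity)
  rw [sum_add_distrib, sum_const, nsmul_eq_mul, mul_one, ← mul_sum, sum_sub_distrib, sum_const,
    nsmul_eq_mul]
  nlinarith

/-- **Satisfiability coding lemma.** Let `A` be a set of points that agree outside `T`, such that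
for each `x ∈ A` and each coordinate `i ∈ T`, the coordinate `x i` is forced by at most `k - 1` other
coordinates in `T`. Then `|A| ≤ 2 ^ (|T| - |T| / k)`. -/
theorem coding {ι : Type} [DecidableEq ι] (T : Finset ι) (A : Finset (ι → Bool)) {k : ℕ}
    (hk : 1 ≤ k) (hout : ∀ x ∈ A, ∀ x' ∈ A, ∀ i ∉ T, x i = x' i)
    (hA : ∀ x ∈ A, ∀ i ∈ T, ∃ S : Finset ι, i ∈ S ∧ S ⊆ T ∧ #S ≤ k ∧
      ∀ x' ∈ A, (∀ j ∈ S, j ≠ i → x j = x' j) → x' i = x i) :
    (#A : ℝ) * (2 : ℝ) ^ ((#T : ℝ) / k) ≤ (2 : ℝ) ^ #T := by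
  classical
  have hkR : (0 : ℝ) < k := by exact_mod_cast hk
  choose! S hS1 hS2 hS3 hS4 using hA
  set N := #T with hN
  let J : (T ≃ Fin N) → (ι → Bool) → Finset (Fin N) := fun σ x =>
    univ.filter (fun p => ∀ j : T, (j : ι) ∈ S x (σ.symm p) → j ≠ σ.symm p → σ j < p)
  -- Kraft's inequality for each order
  have hkraft : ∀ σ : T ≃ Fin N, ∑ x ∈ A, (2 : ℝ) ^ #(J σ x) ≤ (2 : ℝ) ^ N := by
    intro σ
    let g : (ι → Bool) → (Fin N → Bool) := fun x p => x (σ.symm p)
    have hinj : ∀ x ∈ A, ∀ x' ∈ A, g x = g x' → x = x' := by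
      intro x hx x' hx' h
      funext i
      by_cases hi : i ∈ T
      · have h1 := congrFun h (σ ⟨i, hi⟩)
        simpa [g] using h1
      · exact hout x hx x' hx' i hi
    have hinv : ∀ x ∈ A, Function.invFunOn g A (g x) = x := by
      intro x hx
      have h1 : ∃ a ∈ (A : Set (ι → Bool)), g a = g x := ⟨x, hx, rfl⟩
      exact hinj _ (Function.invFunOn_mem h1) _ hx (Function.invFunOn_eq h1)
    have h1 := kraft N (A.image g) (fun y => J σ (Function.invFunOn g A y)) (by
      intro y hy y' hy' p hp hag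
      obtain ⟨x, hx, rfl⟩ := mem_image.1 hy
      obtain ⟨x', hx', rfl⟩ := mem_image.1 hy'
      rw [hinv x hx] at hp
      have hp' := (mem_filter.1 hp).2
      refine hS4 x hx (σ.symm p) (σ.symm p).2 x' hx' (fun j hj hne => ?_)
      have hjT : j ∈ T := hS2 x hx _ (σ.symm p).2 hj
      have h2 := hp' ⟨j, hjT⟩ hj (fun h => hne (congrArg Subtype.val h))
      have h3 := hag _ h2
      simpa [g] using h3)
    rw [sum_image (fun x hx x' hx' h => hinj x hx x' hx' h)] at h1
    have h2 : ∑ x ∈ A, 2 ^ #(J σ (Function.invFunOn g A (g x))) = ∑ x ∈ A, 2 ^ #(J σ x) :=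
      sum_congr rfl (fun x hx => by rw [hinv x hx])
    rw [h2] at h1
    exact_mod_cast h1
  -- the expected number of forced coordinates
  have hexp : ∀ x ∈ A, ((N : ℝ) / k) * #(univ : Finset (T ≃ Fin N)) ≤
      ∑ σ : T ≃ Fin N, (#(J σ x) : ℝ) := by
    intro x hx
    have h1 : ∀ σ : T ≃ Fin N, #(J σ x) = ∑ i : T,
        if (∀ j ∈ univ.filter (fun j : T => (j : ι) ∈ S x i), j ≠ i → σ j < σ i) then 1 else 0 := by
      intro σ
      have h2 : #(J σ x) = ∑ p : Fin N,
          if (∀ j : T, (j : ι) ∈ S x (σ.symm p) → j ≠ σ.symm p → σ j < p) then 1 else 0 := by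
        simp only [J]
        rw [card_filter]
      rw [h2, ← Equiv.sum_comp σ]
      refine sum_congr rfl (fun i _ => ?_)
      rw [Equiv.symm_apply_apply]
      congr 1
      simp only [mem_filter, mem_univ, true_and]
    have h2 : ∑ σ : T ≃ Fin N, #(J σ x) = ∑ i : T,
        #{σ : T ≃ Fin N | ∀ j ∈ univ.filter (fun j : T => (j : ι) ∈ S x i),
          j ≠ i → σ j < σ i} := by
      rw [sum_congr rfl (fun σ _ => h1 σ), sum_comm]
      refine sum_congr rfl (fun i _ => ?_)
      rw [card_filter]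
    have h3 : ∀ i : T, Fintype.card (T ≃ Fin N) ≤
        k * #{σ : T ≃ Fin N | ∀ j ∈ univ.filter (fun j : T => (j : ι) ∈ S x i),
          j ≠ i → σ j < σ i} := by
      intro i
      have hmem : i ∈ univ.filter (fun j : T => (j : ι) ∈ S x i) :=
        mem_filter.2 ⟨mem_univ _, hS1 x hx i i.2⟩
      refine (card_last _ hmem).trans (Nat.mul_le_mul_right _ ?_)
      refine le_trans ?_ (hS3 x hx i i.2)
      refine card_le_card_of_injOn (fun j : T => (j : ι)) ?_ ?_
      · intro j hj
        exact (mem_filter.1 (mem_coe.1 hj)).2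
      · intro a _ b _ h
        exact Subtype.ext h
    have h4 : N * Fintype.card (T ≃ Fin N) ≤ k * ∑ σ : T ≃ Fin N, #(J σ x) := by
      rw [h2, mul_sum]
      have h5 : N * Fintype.card (T ≃ Fin N) = ∑ _i : T, Fintype.card (T ≃ Fin N) := by
        rw [sum_const, card_univ, Fintype.card_coe, smul_eq_mul]
      rw [h5]
      exact sum_le_sum (fun i _ => h3 i)
    have h6 : (N : ℝ) * Fintype.card (T ≃ Fin N) ≤ k * ∑ σ : T ≃ Fin N, (#(J σ x) : ℝ) := by
      exact_mod_cast h4
    rw [card_univ, div_mul_eq_mul_div, div_le_iff₀ hkR]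
    linarith
  have hne : Nonempty (T ≃ Fin N) := by
    rw [hN, ← Fintype.card_coe]
    exact ⟨Fintype.equivFin _⟩
  have hpos : (0 : ℝ) < #(univ : Finset (T ≃ Fin N)) := by
    rw [card_univ]
    exact_mod_cast Fintype.card_pos
  have h1 : (#A : ℝ) * ((2 : ℝ) ^ ((N : ℝ) / k) * #(univ : Finset (T ≃ Fin N))) ≤
      (2 : ℝ) ^ N * #(univ : Finset (T ≃ Fin N)) := by
    calc (#A : ℝ) * ((2 : ℝ) ^ ((N : ℝ) / k) * #(univ : Finset (T ≃ Fin N)))
        = ∑ _x ∈ A, (2 : ℝ) ^ ((N : ℝ) / k) * #(univ : Finset (T ≃ Fin N)) := by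
          rw [sum_const, nsmul_eq_mul]
      _ ≤ ∑ x ∈ A, ∑ σ : T ≃ Fin N, (2 : ℝ) ^ #(J σ x) :=
          sum_le_sum (fun x hx => jensen _ _ _ (hexp x hx))
      _ = ∑ σ : T ≃ Fin N, ∑ x ∈ A, (2 : ℝ) ^ #(J σ x) := sum_comm
      _ ≤ ∑ _σ : T ≃ Fin N, (2 : ℝ) ^ N := sum_le_sum (fun σ _ => hkraft σ)
      _ = (2 : ℝ) ^ N * #(univ : Finset (T ≃ Fin N)) := by
          rw [sum_const, nsmul_eq_mul, mul_comm]
  rw [← mul_assoc] at h1
  exact le_of_mul_le_mul_right h1 hpos

end Pool.Agent.X249.D3
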