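import Pool.Agent.X249.D3.Wide

/-!
# Depth-three circuits for graph isomorphism
-/

set_option autoImplicit false

namespace Pool.Agent.X249.D3

open Finset Pool.Agent.X249.GI

theorem eventually_bounds : ∃ n₀ : ℕ, ∀ n ≥ n₀, 256 ≤ n ∧
    (n : ℝ) ^ (1 / 4 : ℝ) * Real.logb 2 n + 1 ≤ Real.sqrt (n * Real.logb 2 n) / 200 := by
  have h1 : ∀ᶠ x : ℝ in Filter.atTop, Real.log x ≤ (1 / 10) * x ^ (1 / 8 : ℝ) := by
    have h := (isLittleO_log_rpow_atTop (show (0 : ℝ) < 1 / 8 by norm_num)).bound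
      (show (0 : ℝ) < 1 / 10 by norm_num)
    filter_upwards [h, Filter.eventually_ge_atTop 1] with x hx hx1
    rw [Real.norm_of_nonneg (Real.log_nonneg hx1),
      Real.norm_of_nonneg (Real.rpow_nonneg (by linarith) _)] at hx
    exact hx
  have h2 : ∀ᶠ x : ℝ in Filter.atTop, (400 : ℝ) ≤ x ^ (1 / 8 : ℝ) :=
    (tendsto_rpow_atTop (show (0 : ℝ) < 1 / 8 by norm_num)).eventually_ge_atTop 400
  have h3 := tendsto_natCast_atTop_atTop (R := ℝ) |>.eventually
    (h1.and (h2.and (Filter.eventually_ge_atTop (256 : ℝ))))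
  obtain ⟨n₀, hn₀⟩ := Filter.eventually_atTop.1 h3
  refine ⟨n₀, fun n hn => ?_⟩
  obtain ⟨h4, h5, h6⟩ := hn₀ n hn
  have hn256 : 256 ≤ n := by exact_mod_cast h6
  refine ⟨hn256, ?_⟩
  set y : ℝ := (n : ℝ) ^ (1 / 8 : ℝ) with hy
  have hnpos : (0 : ℝ) < n := by linarith
  have hy0 : 0 < y := by positivity
  have hlog2 : (1 / 10 : ℝ) ≤ Real.log 2 := by
    have := Real.log_two_gt_d9
    linarith
  have hL : Real.logb 2 n ≤ y := by
    rw [Real.logb, div_le_iff₀ (by linarith)]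
    nlinarith
  have hL1 : 1 ≤ Real.logb 2 n := by
    rw [Real.le_logb_iff_rpow_le (by norm_num) hnpos, Real.rpow_one]
    linarith
  have hy2 : (n : ℝ) ^ (1 / 4 : ℝ) = y ^ 2 := by
    rw [hy, ← Real.rpow_natCast, ← Real.rpow_mul hnpos.le]
    norm_num
  have hy4 : y ^ 4 ≤ Real.sqrt (n * Real.logb 2 n) := by
    apply Real.le_sqrt_of_sq_le
    have h7 : (y ^ 4) ^ 2 = n := by
      rw [← pow_mul, hy, ← Real.rpow_natCast, ← Real.rpow_mul hnpos.le]
      norm_num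
    rw [h7]
    nlinarith
  rw [hy2]
  have h8 : y ^ 2 * Real.logb 2 n ≤ y ^ 2 * y := mul_le_mul_of_nonneg_left hL (by positivity)
  have h9 : y ^ 3 * 400 ≤ y ^ 3 * y := mul_le_mul_of_nonneg_left h5 (by positivity)
  have h10 : (1 : ℝ) ≤ y ^ 3 := one_le_pow₀ (by linarith)
  nlinarith

theorem three_quarters (v : ℕ) (x : ℝ) (hx : x ≤ v) :
    (3 / 4 : ℝ) ^ v ≤ 2 ^ (-(x / 64)) := by
  have h1 : (3 / 4 : ℝ) ≤ 2 ^ (-(1 / 64) : ℝ) := by
    have h2 : (3 / 4 : ℝ) ^ (64 : ℝ) ≤ (2 ^ (-(1 / 64) : ℝ)) ^ (64 : ℝ) := by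
      rw [← Real.rpow_mul (by norm_num)]
      norm_num
    exact (Real.rpow_le_rpow_iff (by norm_num) (by positivity) (by norm_num)).1 h2
  calc (3 / 4 : ℝ) ^ v ≤ (2 ^ (-(1 / 64) : ℝ)) ^ v := pow_le_pow_left₀ (by norm_num) h1 v
    _ = 2 ^ (-((v : ℝ) / 64)) := by
        rw [← Real.rpow_natCast, ← Real.rpow_mul (by norm_num)]
        congr 1
        ring
    _ ≤ 2 ^ (-(x / 64)) := by
        apply Real.rpow_le_rpow_of_exponent_le (by norm_num)
        linarith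

/-- **Unbounded width.** -/
theorem depth_three : ∃ n₀ : ℕ, ∀ n ≥ n₀, ∀ (S t : ℕ) (R : Type) [Fintype R] [Nonempty R]
    (U : R → OrCNF (Bool × Sym2 (Fin n))), OneSided U t → (∀ r, (U r).s ≤ S) →
    (∀ r, #(univ.biUnion (U r).F) ≤ S) →
    (2 : ℝ) ^ (Real.sqrt (n * Real.logb 2 n) / 100) ≤ S * t := by
  obtain ⟨n₀, hn₀⟩ := eventually_bounds
  refine ⟨n₀, fun n hn S t R _ _ U hU hs hS => ?_⟩
  obtain ⟨h256, hb⟩ := hn₀ n hn
  set L := Real.logb 2 n with hL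
  set x := Real.sqrt (n * L) with hx
  have hnpos : (0 : ℝ) < n := by
    have : (256 : ℝ) ≤ n := by exact_mod_cast h256
    linarith
  have hL8 : 8 ≤ L := by
    rw [hL, Real.le_logb_iff_rpow_le (by norm_num) hnpos,
      show (2 : ℝ) ^ (8 : ℝ) = 256 by norm_num]
    exact_mod_cast h256
  have hx2 : x ^ 2 = n * L := Real.sq_sqrt (by positivity)
  have hx1 : 1 ≤ x := by
    have h1 : (1 : ℝ) ≤ n := by
      have : (256 : ℝ) ≤ n := by exact_mod_cast h256
      linarith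
    have h2 : (1 : ℝ) ≤ n * L := by nlinarith
    rw [hx]
    exact Real.one_le_sqrt.2 h2
  set m := Nat.log 2 n / 4 with hm
  have hlog1 : ((Nat.log 2 n : ℕ) : ℝ) ≤ L := by
    rw [hL, Real.le_logb_iff_rpow_le (by norm_num) hnpos, Real.rpow_natCast]
    exact_mod_cast Nat.pow_log_le_self 2 (by omega)
  have hlog2 : L < (Nat.log 2 n : ℕ) + 1 := by
    rw [hL, Real.logb_lt_iff_lt_rpow (by norm_num) hnpos]
    have h1 : n < 2 ^ (Nat.log 2 n + 1) := Nat.lt_pow_succ_log_self (by norm_num) n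
    have h2 : ((Nat.log 2 n : ℕ) : ℝ) + 1 = ((Nat.log 2 n + 1 : ℕ) : ℝ) := by push_cast; rfl
    rw [h2, Real.rpow_natCast]
    exact_mod_cast h1
  have hm1 : 4 * m ≤ Nat.log 2 n := Nat.mul_div_le _ _
  have hm2 : Nat.log 2 n < 4 * (m + 1) := Nat.lt_mul_div_succ _ (by norm_num)
  have hm1R : 4 * (m : ℝ) ≤ L := by
    have : ((4 * m : ℕ) : ℝ) ≤ (Nat.log 2 n : ℕ) := by exact_mod_cast hm1
    push_cast at this
    linarith
  have hm2R : L ≤ 4 * (m : ℝ) + 4 := by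
    have : ((Nat.log 2 n + 1 : ℕ) : ℝ) ≤ ((4 * (m + 1) : ℕ) : ℝ) := by exact_mod_cast hm2
    push_cast at this
    linarith
  have hmL : L / 8 ≤ m := by linarith
  have hlogn : 2 * Nat.log 2 n ≤ n := by
    have h1 : Nat.log 2 n < n := Nat.log_lt_self 2 (by omega)
    have h2 := Nat.pow_log_le_self 2 (show n ≠ 0 by omega)
    have h3 : 8 ≤ Nat.log 2 n := by
      have : 2 ^ 8 ≤ n := by omega
      exact (Nat.le_log_iff_pow_le (by norm_num) (by omega)).2 this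
    obtain ⟨d, hd⟩ := Nat.exists_eq_add_of_le h3
    rw [hd, pow_add] at h2
    have h4 : d < 2 ^ d := Nat.lt_two_pow_self
    rw [hd]
    omega
  have hmn : 2 * m ≤ n := by omega
  have hq : (n - m) + m = n := by omega
  have hqR : (n : ℝ) / 2 ≤ ((n - m : ℕ) : ℝ) := by
    have h1 : ((n : ℕ) : ℝ) ≤ ((2 * (n - m) : ℕ) : ℝ) := by
      exact_mod_cast (by omega : n ≤ 2 * (n - m))
    push_cast at h1 ⊢
    linarith
  set v := ⌈x⌉₊ with hv
  have hv1 : 1 ≤ v := Nat.one_le_ceil_iff.2 (by linarith)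
  have hxv : x ≤ v := Nat.le_ceil x
  have hvx : (v : ℝ) ≤ 2 * x := by
    have := Nat.ceil_lt_add_one (show 0 ≤ x by linarith)
    linarith
  have key := wide_aux hv1 hU hs hS
    ((finCongr hq.symm).trans (finSumFinEquiv (m := n - m) (n := m)).symm)
  -- the three factors
  have hA : (((n - m : ℕ) : ℝ) + 1) ^ 2 ^ m ≤ 2 ^ ((n : ℝ) ^ (1 / 4 : ℝ) * L) := by
    have h1 : ((n - m : ℕ) : ℝ) + 1 ≤ n := by
      have : 1 ≤ m := by
        have h3 : 8 ≤ Nat.log 2 n := by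
          have : 2 ^ 8 ≤ n := by omega
          exact (Nat.le_log_iff_pow_le (by norm_num) (by omega)).2 this
        omega
      exact_mod_cast (by omega : n - m + 1 ≤ n)
    have h2 : ((2 ^ m : ℕ) : ℝ) ≤ (n : ℝ) ^ (1 / 4 : ℝ) := by
      have h3 : (2 : ℝ) ^ L = n := Real.rpow_logb (by norm_num) (by norm_num) hnpos
      rw [← h3, ← Real.rpow_mul (by norm_num)]
      push_cast
      rw [← Real.rpow_natCast]
      apply Real.rpow_le_rpow_of_exponent_le (by norm_num)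
      linarith
    calc (((n - m : ℕ) : ℝ) + 1) ^ 2 ^ m ≤ (n : ℝ) ^ 2 ^ m :=
          pow_le_pow_left₀ (by positivity) h1 _
      _ = 2 ^ (L * ((2 ^ m : ℕ) : ℝ)) := by
          rw [Real.rpow_mul (by norm_num), hL, Real.rpow_logb (by norm_num) (by norm_num) hnpos,
            Real.rpow_natCast]
      _ ≤ 2 ^ ((n : ℝ) ^ (1 / 4 : ℝ) * L) := by
          apply Real.rpow_le_rpow_of_exponent_le (by norm_num)
          rw [mul_comm]
          exact mul_le_mul_of_nonneg_right h2 (by linarith)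
  have hB : (3 / 4 : ℝ) ^ v + 2 ^ (-((((n - m) * m : ℕ) : ℝ) / (2 * v : ℕ))) ≤
      2 ^ (1 - x / 64) := by
    have h1 := three_quarters v x hxv
    have h2 : (2 : ℝ) ^ (-((((n - m) * m : ℕ) : ℝ) / (2 * v : ℕ))) ≤ 2 ^ (-(x / 64)) := by
      apply Real.rpow_le_rpow_of_exponent_le (by norm_num)
      rw [neg_le_neg_iff, le_div_iff₀ (by exact_mod_cast (by omega : 0 < 2 * v))]
      push_cast
      have h3 : (n : ℝ) / 2 * (L / 8) ≤ ((n - m : ℕ) : ℝ) * m :=
        mul_le_mul hqR hmL (by linarith) (by positivity)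
      have h4 : x / 64 * (2 * v) ≤ x / 64 * (2 * (2 * x)) :=
        mul_le_mul_of_nonneg_left (by linarith) (by linarith)
      nlinarith
    have h3 : (2 : ℝ) ^ (1 - x / 64) = 2 * 2 ^ (-(x / 64)) := by
      rw [sub_eq_add_neg, Real.rpow_add (by norm_num), Real.rpow_one]
    rw [h3]
    linarith
  have h1 : (1 : ℝ) ≤ (S * t : ℕ) * 2 ^ (-(x / 100)) := by
    refine key.trans (mul_le_mul_of_nonneg_left ?_ (by positivity))
    calc (((n - m : ℕ) : ℝ) + 1) ^ 2 ^ m * ((3 / 4 : ℝ) ^ v +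
          2 ^ (-((((n - m) * m : ℕ) : ℝ) / (2 * v : ℕ))))
        ≤ 2 ^ ((n : ℝ) ^ (1 / 4 : ℝ) * L) * 2 ^ (1 - x / 64) :=
          mul_le_mul hA hB (by positivity) (by positivity)
      _ = 2 ^ ((n : ℝ) ^ (1 / 4 : ℝ) * L + (1 - x / 64)) := by
          rw [Real.rpow_add (by norm_num)]
      _ ≤ 2 ^ (-(x / 100)) := by
          apply Real.rpow_le_rpow_of_exponent_le (by norm_num)
          linarith
  rw [Real.rpow_neg (by norm_num), ← div_eq_mul_inv, one_le_div₀ (by positivity)] at h1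
  exact_mod_cast h1

end Pool.Agent.X249.D3
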