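import Pool.Agent.X249.D3.Cnf

/-!
# Disjunctions of CNFs for graph isomorphism: unbounded width
-/

set_option autoImplicit false

namespace Pool.Agent.X249.D3

open Finset Pool.Agent.X249.GI

variable {V : Type} {q m : ℕ}

/-- The random choices: for each cell, which of the two bits stays free, and the two bits. -/
abbrev Om (q m : ℕ) : Type := (Fin q × Fin m) → Bool × Bool × Bool

/-- The pair of tables. -/
def tab (g : Om q m) : Bool × (Fin q × Fin m) → Bool :=
  fun p => if p.1 then (g p.2).2.2 else (g p.2).2.1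

theorem card_Om (q m : ℕ) : Fintype.card (Om q m) = 8 ^ (q * m) := by
  rw [Fintype.card_fun, Fintype.card_prod, Fintype.card_prod, Fintype.card_bool,
    Fintype.card_prod, Fintype.card_fin, Fintype.card_fin]

/-- Few random choices avoid all fixed literals of a wide clause. -/
theorem card_avoid (U : Finset (Fin q × Fin m)) (B β : Fin q × Fin m → Bool) :
    (#{g : Om q m | ∀ u ∈ U, B u ≠ (g u).1 → tab g (B u, u) ≠ β u} : ℝ) ≤
      8 ^ (q * m) * (3 / 4) ^ #U := by
  classical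
  let W : Fin q × Fin m → Finset (Bool × Bool × Bool) := fun u =>
    if u ∈ U then univ.filter (fun x => B u ≠ x.1 → (if B u then x.2.2 else x.2.1) ≠ β u) else univ
  have h1 : ({g : Om q m | ∀ u ∈ U, B u ≠ (g u).1 → tab g (B u, u) ≠ β u} : Finset _) ⊆
      Fintype.piFinset W := by
    intro g hg
    rw [Fintype.mem_piFinset]
    intro u
    simp only [W]
    by_cases hu : u ∈ U
    · rw [if_pos hu]
      exact mem_filter.2 ⟨mem_univ _, (mem_filter.1 hg).2 u hu⟩
    · rw [if_neg hu]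
      exact mem_univ _
  have h2 : ∀ b c : Bool, #(univ.filter (fun x : Bool × Bool × Bool =>
      b ≠ x.1 → (if b then x.2.2 else x.2.1) ≠ c)) = 6 := by decide
  have h3 : ∀ u, (#(W u) : ℝ) = 8 * (if u ∈ U then (3 / 4 : ℝ) else 1) := by
    intro u
    simp only [W]
    by_cases hu : u ∈ U
    · rw [if_pos hu, if_pos hu, h2]
      norm_num
    · rw [if_neg hu, if_neg hu, card_univ, Fintype.card_prod, Fintype.card_prod,
        Fintype.card_bool]
      norm_num
  calc (#{g : Om q m | ∀ u ∈ U, B u ≠ (g u).1 → tab g (B u, u) ≠ β u} : ℝ)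
      ≤ (#(Fintype.piFinset W) : ℝ) := by exact_mod_cast card_le_card h1
    _ = ∏ u, (#(W u) : ℝ) := by
        rw [Fintype.card_piFinset]
        push_cast
        rfl
    _ = ∏ u : Fin q × Fin m, (8 * (if u ∈ U then (3 / 4 : ℝ) else 1)) :=
        prod_congr rfl (fun u _ => h3 u)
    _ = 8 ^ (q * m) * (3 / 4) ^ #U := by
        rw [prod_mul_distrib, prod_const, card_univ, Fintype.card_prod, Fintype.card_fin,
          Fintype.card_fin, prod_ite_mem, univ_inter, prod_const]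

/-- The choice does not make a literal of the clause true outside the free cells. -/
def Bad [DecidableEq V] (e : V ≃ Fin q ⊕ Fin m) (c : Finset ((Bool × Sym2 V) × Bool))
    (g : Om q m) : Prop :=
  ∀ p b, (var e p, b) ∈ c → p.1 ≠ (g p.2).1 → tab g p ≠ b

theorem card_bad [DecidableEq V] (e : V ≃ Fin q ⊕ Fin m)
    (c : Finset ((Bool × Sym2 V) × Bool)) {v : ℕ} (hv : 2 * v < #(touched e c))
    [DecidablePred (Bad e c)] :
    (#{g : Om q m | Bad e c g} : ℝ) ≤ 8 ^ (q * m) * (3 / 4) ^ v := by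
  classical
  set U := (touched e c).image Prod.snd with hU
  have hcard : v ≤ #U := by
    have h1 : touched e c ⊆ (univ : Finset Bool) ×ˢ U := by
      intro p hp
      exact mem_product.2 ⟨mem_univ _, mem_image_of_mem _ hp⟩
    have h2 := card_le_card h1
    rw [card_product, card_univ, Fintype.card_bool] at h2
    omega
  have h1 : ∀ u : Fin q × Fin m, ∃ x : Bool × Bool, u ∈ U → (var e (x.1, u), x.2) ∈ c := by
    intro u
    by_cases hu : u ∈ U
    · obtain ⟨p, hp, rfl⟩ := mem_image.1 hu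
      obtain ⟨b, hb⟩ := (mem_filter.1 hp).2
      exact ⟨(p.1, b), fun _ => hb⟩
    · exact ⟨(false, false), fun h => absurd h hu⟩
  choose x hx using h1
  have h2 := card_avoid U (fun u => (x u).1) (fun u => (x u).2)
  have h3 : ({g : Om q m | Bad e c g} : Finset _) ⊆
      ({g : Om q m | ∀ u ∈ U, (x u).1 ≠ (g u).1 → tab g ((x u).1, u) ≠ (x u).2} :
        Finset (Om q m)) := by
    intro g hg
    refine mem_filter.2 ⟨mem_univ _, fun u hu hne => ?_⟩
    exact (mem_filter.1 hg).2 ((x u).1, u) (x u).2 (hx u hu) hne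
  calc (#{g : Om q m | Bad e c g} : ℝ)
      ≤ (#{g : Om q m | ∀ u ∈ U, (x u).1 ≠ (g u).1 → tab g ((x u).1, u) ≠ (x u).2} : ℝ) := by
        exact_mod_cast card_le_card h3
    _ ≤ 8 ^ (q * m) * (3 / 4) ^ #U := h2
    _ ≤ 8 ^ (q * m) * (3 / 4) ^ v := by
        refine mul_le_mul_of_nonneg_left ?_ (by positivity)
        exact pow_le_pow_of_le_one (by norm_num) (by norm_num) hcard

/-- For most choices the CNF has small width on the free cells, and then it accepts few pairs. -/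
theorem card_fibre [DecidableEq V] (e : V ≃ Fin q ⊕ Fin m)
    {F : Finset (Finset ((Bool × Sym2 V) × Bool))}
    (hF : ∀ z, (∀ c ∈ F, ∃ l ∈ c, enc e z l.1 = l.2) → Good e z) {v : ℕ} (hv : 1 ≤ v)
    (h : (Fin q × Fin m) → Bool × Bool) (G : Finset (Om q m))
    (hG : ∀ g ∈ G, ∀ u, h u = ((g u).1, tab g (!(g u).1, u)))
    (hG1 : ∀ g ∈ G, ∀ c ∈ F, ∃ l ∈ c, enc e (tab g) l.1 = l.2)
    (hG2 : ∀ g ∈ G, ∀ c ∈ F, 2 * v < #(touched e c) → ¬ Bad e c g) :
    (#G : ℝ) ≤ 2 ^ (((q * m : ℕ) : ℝ) - ((q * m : ℕ) : ℝ) / (2 * v : ℕ)) := by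
  classical
  -- the free cells
  set T : Finset (Bool × (Fin q × Fin m)) := univ.filter (fun p => p.1 = (h p.2).1) with hT
  have hTcard : #T = q * m := by
    have h1 : T = (univ : Finset (Fin q × Fin m)).image (fun u => ((h u).1, u)) := by
      ext p
      rw [hT, mem_filter, mem_image]
      constructor
      · rintro ⟨_, h1⟩
        exact ⟨p.2, mem_univ _, Prod.ext h1.symm rfl⟩
      · rintro ⟨u, _, rfl⟩
        exact ⟨mem_univ _, rfl⟩
    rw [h1, card_image_of_injective _ (fun a b hab => (Prod.mk.inj hab).2), card_univ,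
      Fintype.card_prod, Fintype.card_fin, Fintype.card_fin]
  have hfst : ∀ g ∈ G, ∀ u, (g u).1 = (h u).1 := fun g hg u => by rw [hG g hg u]
  have hsnd : ∀ g ∈ G, ∀ p ∉ T, tab g p = (h p.2).2 := by
    intro g hg p hp
    have h1 : p.1 ≠ (h p.2).1 := fun h1 => hp (mem_filter.2 ⟨mem_univ _, h1⟩)
    have h2 : p.1 = !(g p.2).1 := by
      rw [hfst g hg]
      revert h1
      cases p.1 <;> cases (h p.2).1 <;> simp
    have h3 : p = (!(g p.2).1, p.2) := Prod.ext h2 rfl
    rw [hG g hg p.2]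
    show tab g p = tab g (!(g p.2).1, p.2)
    rw [← h3]
  have hinj : ∀ g ∈ G, ∀ g' ∈ G, tab g = tab g' → g = g' := by
    intro g hg g' hg' hgg
    funext u
    have h1 : (g u).1 = (g' u).1 := by rw [hfst g hg, hfst g' hg']
    have h2 : (g u).2.1 = (g' u).2.1 := congrFun hgg (false, u)
    have h3 : (g u).2.2 = (g' u).2.2 := congrFun hgg (true, u)
    exact Prod.ext h1 (Prod.ext h2 h3)
  have hcard : #(G.image tab) = #G := card_image_of_injOn (fun g hg g' hg' hgg =>
    hinj g (mem_coe.1 hg) g' (mem_coe.1 hg') hgg)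
  have key := coding T (G.image tab) (k := 2 * v) (by omega) (by
    intro x hx x' hx' i hi
    obtain ⟨g, hg, rfl⟩ := mem_image.1 hx
    obtain ⟨g', hg', rfl⟩ := mem_image.1 hx'
    rw [hsnd g hg i hi, hsnd g' hg' i hi]) (by
    intro x hx i hi
    obtain ⟨g, hg, rfl⟩ := mem_image.1 hx
    obtain ⟨c, hc, h1, h2⟩ := crit e hF (hG1 g hg) i
    have hbad : Bad e c g := by
      intro p b hb hne heq
      have h3 := h1 _ hb
      rw [enc_var, Function.update_of_ne (fun h4 => ?_)] at h3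
      · exact h3 heq
      · rw [h4] at hne
        rw [hfst g hg] at hne
        exact hne (mem_filter.1 hi).2
    have hnw : #(touched e c) ≤ 2 * v := by
      by_contra hcon
      exact hG2 g hg c hc (by omega) hbad
    have h3 : ∀ g' ∈ G, ∃ p' ∈ touched e c ∩ T,
        tab g' p' ≠ Function.update (tab g) i (!tab g i) p' := by
      intro g' hg'
      obtain ⟨p', hp', h4⟩ := h2 _ (hG1 g' hg')
      refine ⟨p', mem_inter.2 ⟨hp', ?_⟩, h4⟩
      by_contra h5
      have h6 : p' ≠ i := fun h6 => h5 (h6 ▸ hi)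
      rw [Function.update_of_ne h6, hsnd g hg p' h5, hsnd g' hg' p' h5] at h4
      exact h4 rfl
    refine ⟨touched e c ∩ T, flip_mem (h3 g hg), inter_subset_right,
      (card_le_card inter_subset_left).trans hnw, ?_⟩
    intro x' hx' hag
    obtain ⟨g', hg', rfl⟩ := mem_image.1 hx'
    exact forced (h3 g' hg') hag)
  rw [hcard, hTcard] at key
  rw [Real.rpow_sub (by norm_num), le_div_iff₀ (by positivity), Real.rpow_natCast]
  exact key

/-- A depth-three circuit of size `S` accepts few pairs. -/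
theorem card_circuit [DecidableEq V] (e : V ≃ Fin q ⊕ Fin m) (C : OrCNF (Bool × Sym2 V))
    (hC : ∀ z, C.Accepts (enc e z) → Good e z) {v S : ℕ} (hv : 1 ≤ v) (hs : C.s ≤ S)
    (hS : #(univ.biUnion C.F) ≤ S) (A : Finset (Bool × (Fin q × Fin m) → Bool))
    (hA : ∀ z ∈ A, C.Accepts (enc e z)) :
    (#A : ℝ) ≤ S * (4 ^ (q * m) * ((3 / 4) ^ v + 2 ^ (-(((q * m : ℕ) : ℝ) / (2 * v : ℕ))))) := by
  classical
  set N := q * m with hN
  set Wd := (univ.biUnion C.F).filter (fun c => 2 * v < #(touched e c)) with hWd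
  -- all choices that give a table in `A`
  set Ω := (univ : Finset (Om q m)).filter (fun g => tab g ∈ A) with hΩ
  have h1 : 2 ^ N * #A ≤ #Ω := by
    have h2 : #((univ : Finset (Fin q × Fin m → Bool)) ×ˢ A) = 2 ^ N * #A := by
      rw [card_product, card_univ, Fintype.card_fun, Fintype.card_prod, Fintype.card_bool,
        Fintype.card_fin, Fintype.card_fin]
    rw [← h2]
    refine card_le_card_of_injOn
      (fun p => (fun u => (p.1 u, p.2 (false, u), p.2 (true, u)) : Om q m)) ?_ ?_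
    · rintro ⟨τ, z⟩ hp
      have hz := (mem_product.1 (mem_coe.1 hp)).2
      rw [mem_coe, hΩ, mem_filter]
      refine ⟨mem_univ _, ?_⟩
      have h3 : tab (fun u => (τ u, z (false, u), z (true, u)) : Om q m) = z := by
        funext p
        obtain ⟨b, u⟩ := p
        cases b <;> rfl
      show tab (fun u => (τ u, z (false, u), z (true, u)) : Om q m) ∈ A
      rw [h3]
      exact hz
    · rintro ⟨τ, z⟩ _ ⟨τ', z'⟩ _ hh
      have h3 : ∀ u, (τ u, z (false, u), z (true, u)) = (τ' u, z' (false, u), z' (true, u)) :=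
        fun u => congrFun hh u
      refine Prod.ext (funext fun u => (Prod.mk.inj (h3 u)).1) (funext fun p => ?_)
      obtain ⟨b, u⟩ := p
      have h4 := Prod.mk.inj (Prod.mk.inj (h3 u)).2
      cases b
      · exact h4.1
      · exact h4.2
  set γ : ℝ := 2 ^ ((N : ℝ) - (N : ℝ) / (2 * v : ℕ)) with hγ
  have hγ0 : 0 < γ := by positivity
  -- the good choices for one CNF
  let Gd : Fin C.s → Finset (Om q m) := fun j => Ω.filter (fun g =>
    (∀ c ∈ C.F j, ∃ l ∈ c, enc e (tab g) l.1 = l.2) ∧ ∀ c ∈ Wd, ¬ Bad e c g)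
  have hcov : Ω ⊆ Wd.biUnion (fun c => {g : Om q m | Bad e c g}) ∪ univ.biUnion Gd := by
    intro g hg
    rw [mem_union]
    by_cases hb : ∃ c ∈ Wd, Bad e c g
    · obtain ⟨c, hc, hb⟩ := hb
      exact Or.inl (mem_biUnion.2 ⟨c, hc, mem_filter.2 ⟨mem_univ _, hb⟩⟩)
    · push Not at hb
      obtain ⟨j, hj⟩ := hA _ (mem_filter.1 hg).2
      exact Or.inr (mem_biUnion.2 ⟨j, mem_univ _, mem_filter.2 ⟨hg, hj, hb⟩⟩)
  have hGd : ∀ j, (#(Gd j) : ℝ) ≤ 4 ^ N * γ := by
    intro j
    let hmap : Om q m → ((Fin q × Fin m) → Bool × Bool) := fun g u => ((g u).1, tab g (!(g u).1, u))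
    have h2 : #(Gd j) = ∑ h : (Fin q × Fin m) → Bool × Bool, #((Gd j).filter (fun g => hmap g = h)) :=
      card_eq_sum_card_fiberwise (fun _ _ => mem_coe.2 (mem_univ _))
    rw [h2]
    push_cast
    calc ∑ h : (Fin q × Fin m) → Bool × Bool, (#((Gd j).filter (fun g => hmap g = h)) : ℝ)
        ≤ ∑ _h : (Fin q × Fin m) → Bool × Bool, γ := by
          refine sum_le_sum (fun h _ => ?_)
          refine card_fibre e (F := C.F j) (fun z hz => hC z ⟨j, hz⟩) hv h _ ?_ ?_ ?_
          · intro g hg u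
            exact (congrFun (mem_filter.1 hg).2 u).symm
          · intro g hg
            exact (mem_filter.1 (mem_filter.1 hg).1).2.1
          · intro g hg c hc hw
            refine (mem_filter.1 (mem_filter.1 hg).1).2.2 c (mem_filter.2 ⟨?_, hw⟩)
            exact mem_biUnion.2 ⟨j, mem_univ _, hc⟩
      _ = 4 ^ N * γ := by
          rw [sum_const, card_univ, Fintype.card_fun, Fintype.card_prod, Fintype.card_prod,
            Fintype.card_bool, Fintype.card_fin, Fintype.card_fin, nsmul_eq_mul, ← hN]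
          norm_num
  have h2 : (#Ω : ℝ) ≤ S * (8 ^ N * (3 / 4) ^ v) + S * (4 ^ N * γ) := by
    have h3 := (card_le_card hcov).trans ((card_union_le _ _).trans
      (Nat.add_le_add card_biUnion_le card_biUnion_le))
    calc (#Ω : ℝ) ≤ ((∑ c ∈ Wd, #{g : Om q m | Bad e c g} + ∑ j, #(Gd j) : ℕ) : ℝ) := by
          exact_mod_cast h3
      _ = ∑ c ∈ Wd, (#{g : Om q m | Bad e c g} : ℝ) + ∑ j, (#(Gd j) : ℝ) := by push_cast; rfl
      _ ≤ ∑ _c ∈ Wd, (8 ^ N * (3 / 4) ^ v : ℝ) + ∑ _j : Fin C.s, 4 ^ N * γ :=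
          add_le_add (sum_le_sum (fun c hc => card_bad e c (mem_filter.1 hc).2))
            (sum_le_sum (fun j _ => hGd j))
      _ = #Wd * (8 ^ N * (3 / 4) ^ v) + C.s * (4 ^ N * γ) := by
          rw [sum_const, sum_const, card_univ, Fintype.card_fin, nsmul_eq_mul, nsmul_eq_mul]
      _ ≤ S * (8 ^ N * (3 / 4) ^ v) + S * (4 ^ N * γ) := by
          refine add_le_add (mul_le_mul_of_nonneg_right ?_ (by positivity))
            (mul_le_mul_of_nonneg_right ?_ (by positivity))
          · exact_mod_cast (card_filter_le _ _).trans hS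
          · exact_mod_cast hs
  have h3 : ((2 : ℝ) ^ N) * #A ≤ S * (8 ^ N * (3 / 4) ^ v) + S * (4 ^ N * γ) :=
    le_trans (by exact_mod_cast h1) h2
  have h4 : S * (8 ^ N * (3 / 4 : ℝ) ^ v) + S * (4 ^ N * γ) =
      2 ^ N * (S * (4 ^ N * ((3 / 4) ^ v + 2 ^ (-((N : ℝ) / (2 * v : ℕ)))))) := by
    have h5 : γ = 2 ^ N * 2 ^ (-((N : ℝ) / (2 * v : ℕ))) := by
      rw [hγ, sub_eq_add_neg, Real.rpow_add (by norm_num), Real.rpow_natCast]
    have h6 : (8 : ℝ) ^ N = 2 ^ N * 4 ^ N := by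
      rw [← mul_pow]
      norm_num
    rw [h5, h6]
    ring
  rw [h4] at h3
  exact le_of_mul_le_mul_left h3 (by positivity)

/-- The bound for depth-three circuits in terms of the sizes of the two sides. -/
theorem wide_aux {n t S v : ℕ} (hv : 1 ≤ v) {R : Type} [Fintype R] [Nonempty R]
    {U : R → OrCNF (Bool × Sym2 (Fin n))} (hU : OneSided U t) (hs : ∀ r, (U r).s ≤ S)
    (hS : ∀ r, #(univ.biUnion (U r).F) ≤ S) (e : Fin n ≃ Fin q ⊕ Fin m) :
    (1 : ℝ) ≤ (S * t : ℕ) * ((q + 1) ^ 2 ^ m *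
      ((3 / 4) ^ v + 2 ^ (-(((q * m : ℕ) : ℝ) / (2 * v : ℕ))))) := by
  have h1 := average hU e (fun r A _ hA => card_circuit e (U r) (fun z hz => hU.1 r _ _ hz) hv
    (hs r) (hS r) A hA)
  have h2 : ((2 ^ (2 * (q * m)) : ℕ) : ℝ) ≤ (((q + 1) ^ 2 ^ m * #(pairs q m) : ℕ) : ℝ) := by
    exact_mod_cast card_pairs q m
  push_cast at h2
  rw [pow_mul, show (2 : ℝ) ^ 2 = 4 by norm_num] at h2
  have h3 : (4 : ℝ) ^ (q * m) * 1 ≤ 4 ^ (q * m) * ((S * t : ℕ) * ((q + 1) ^ 2 ^ m *
      ((3 / 4) ^ v + 2 ^ (-(((q * m : ℕ) : ℝ) / (2 * v : ℕ)))))) := by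
    calc (4 : ℝ) ^ (q * m) * 1 = 4 ^ (q * m) := mul_one _
      _ ≤ ((q : ℝ) + 1) ^ 2 ^ m * #(pairs q m) := h2
      _ ≤ ((q : ℝ) + 1) ^ 2 ^ m * (t * (S * (4 ^ (q * m) * ((3 / 4) ^ v +
          2 ^ (-(((q * m : ℕ) : ℝ) / (2 * v : ℕ))))))) :=
          mul_le_mul_of_nonneg_left h1 (by positivity)
      _ = 4 ^ (q * m) * ((S * t : ℕ) * ((q + 1) ^ 2 ^ m *
          ((3 / 4) ^ v + 2 ^ (-(((q * m : ℕ) : ℝ) / (2 * v : ℕ)))))) := by
          push_cast
          ring
  exact le_of_mul_le_mul_left h3 (by positivity)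

end Pool.Agent.X249.D3
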